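import Mathlib
import Pool.Agent.Y437.TK.Grp
import Pool.Agent.Helper867.PF.Frame

set_option autoImplicit false

/-!
The kernel `N` of a homomorphism from `P` to the dihedral group of order `2 k`, `k = 2 n + 3`, has
torsion-free abelianization, while `P / [N, N]` has an element of order `k`.
-/

namespace Pool.Agent.Y437.TK.Tors

open Pool.Agent.Helper867.PF (permAct permAct_apply Ext cls cls_ker cls_congr ab_torsionFree
  exists_coord)
open DihedralGroup
open scoped commutatorElement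

variable [Mm]

/-- the order -/
abbrev kk : ℕ := 2 * Mm.n + 3

instance : NeZero kk := ⟨by unfold kk; omega⟩

/-- the dihedral group -/
abbrev D : Type := DihedralGroup kk

theorem two_half : (2 : ZMod kk) * ((Mm.n : ZMod kk) + 2) = 1 := by
  have h : ((kk : ℕ) : ZMod kk) = 0 := ZMod.natCast_self kk
  have e : ((kk : ℕ) : ZMod kk) = 2 * (Mm.n : ZMod kk) + 3 := by
    unfold kk
    push_cast
    rfl
  calc (2 : ZMod kk) * ((Mm.n : ZMod kk) + 2) = (2 * (Mm.n : ZMod kk) + 3) + 1 := by ring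
    _ = 1 := by rw [← e, h, zero_add]

theorem of_two (a : ZMod kk) (h : 2 * a = 0) : a = 0 := by
  calc a = (2 * ((Mm.n : ZMod kk) + 2)) * a := by rw [two_half, one_mul]
    _ = ((Mm.n : ZMod kk) + 2) * (2 * a) := by ring
    _ = 0 := by rw [h, mul_zero]

theorem of_two' (a b : ZMod kk) (h : 2 * a = 2 * b) : a = b := by
  apply sub_eq_zero.1
  apply of_two
  rw [mul_sub, h, sub_self]

theorem prod_all {M : Type*} [CommMonoid M] (F : ZMod kk → M) :
    ∏ a ∈ Finset.range kk, F (a : ZMod kk) = ∏ x : ZMod kk, F x := by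
  refine Finset.prod_nbij (fun a : ℕ => (a : ZMod kk)) (fun _ _ => Finset.mem_univ _) ?_ ?_
    (fun _ _ => rfl)
  · intro a ha b hb hab
    rw [Finset.coe_range, Set.mem_Iio] at ha hb
    have h := (ZMod.natCast_eq_natCast_iff' a b kk).1 hab
    rwa [Nat.mod_eq_of_lt ha, Nat.mod_eq_of_lt hb] at h
  · intro x _
    refine ⟨x.val, ?_, ?_⟩
    · rw [Finset.coe_range, Set.mem_Iio]
      exact ZMod.val_lt x
    · exact ZMod.natCast_zmod_val x

theorem prod_affine {M : Type*} [CommMonoid M] (F : ZMod kk → M) (c : ZMod kk) :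
    ∏ x : ZMod kk, F (c + 2 * x) = ∏ x : ZMod kk, F x := by
  refine Fintype.prod_bijective (fun x => c + 2 * x) ?_ _ _ (fun _ => rfl)
  rw [← Finite.injective_iff_bijective]
  intro x y h
  exact of_two' x y (add_left_cancel h)

/-- conjugation action on the reflections -/
def actR : D → ZMod kk → ZMod kk
  | r a, i => i - 2 * a
  | sr a, i => 2 * a - i

theorem actR_one (i : ZMod kk) : actR 1 i = i := by
  rw [one_def]
  show i - 2 * 0 = i
  ring

theorem actR_mul (γ δ : D) (i : ZMod kk) : actR (γ * δ) i = actR γ (actR δ i) := by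
  rcases γ with a | a <;> rcases δ with b | b
  · rw [r_mul_r]
    show i - 2 * (a + b) = i - 2 * b - 2 * a
    ring
  · rw [r_mul_sr]
    show 2 * (b - a) - i = 2 * b - i - 2 * a
    ring
  · rw [sr_mul_r]
    show 2 * (a + b) - i = 2 * a - (i - 2 * b)
    ring
  · rw [sr_mul_sr]
    show i - 2 * (b - a) = 2 * a - (2 * b - i)
    ring

/-- indices of the reflections -/
def Rf : Type := ZMod kk

instance : DecidableEq Rf := inferInstanceAs (DecidableEq (ZMod kk))

instance : MulAction D Rf where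
  smul γ i := actR γ i
  one_smul := actR_one
  mul_smul := actR_mul

/-- the index set -/
abbrev I3 : Type := Rf ⊕ (D ⊕ D)

/-- auxiliary function -/
def single3 (i : I3) (c : ℤ) : I3 → Multiplicative ℤ :=
  fun j => if j = i then Multiplicative.ofAdd c else 1

/-- auxiliary function -/
def S (x : ZMod kk) : I3 → Multiplicative ℤ := single3 (Sum.inl x) 1

theorem permAct_single (γ : D) (i : I3) (c : ℤ) :
    permAct D I3 γ (single3 i c) = single3 (γ • i) c := by
  funext j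
  rw [permAct_apply]
  unfold single3
  by_cases h : j = γ • i
  · rw [if_pos h, if_pos (inv_smul_eq_iff.2 h)]
  · rw [if_neg h, if_neg (fun h' => h (inv_smul_eq_iff.1 h'))]

theorem permAct_S (γ : D) (x : ZMod kk) : permAct D I3 γ (S x) = S (actR γ x) :=
  permAct_single γ (Sum.inl x) 1

/-- auxiliary element -/
def zE : Ext D I3 := ⟨S 0, sr 0⟩
/-- auxiliary element -/
def sE : Ext D I3 := ⟨S 1, sr 1⟩

theorem mulE (a b : I3 → Multiplicative ℤ) (γ δ : D) :
    (⟨a, γ⟩ : Ext D I3) * ⟨b, δ⟩ = ⟨a * permAct D I3 γ b, γ * δ⟩ := rfl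

theorem sz : sE * zE = ⟨S 1 * S 2, r (-1)⟩ := by
  rw [sE, zE, mulE, permAct_S, sr_mul_sr]
  have h : actR (sr 1 : D) 0 = 2 := by
    show 2 * 1 - 0 = (2 : ZMod kk)
    ring
  rw [h, zero_sub]

theorem zs : zE * sE = ⟨S 0 * S (-1), r 1⟩ := by
  rw [sE, zE, mulE, permAct_S, sr_mul_sr]
  have h : actR (sr 0 : D) 1 = -1 := by
    show 2 * 0 - 1 = (-1 : ZMod kk)
    ring
  rw [h, sub_zero]

theorem sz_pow (j : ℕ) : (sE * zE) ^ j =
    ⟨∏ a ∈ Finset.range (2 * j), S ((a : ZMod kk) + 1), r (-(j : ZMod kk))⟩ := by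
  induction j with
  | zero =>
    rw [pow_zero, mul_zero, Finset.prod_range_zero, Nat.cast_zero, neg_zero, r_zero]
    rfl
  | succ j ih =>
    rw [pow_succ, ih, sz, mulE, map_mul, permAct_S, permAct_S, r_mul_r]
    have h1 : actR (r (-(j : ZMod kk)) : D) 1 = ((2 * j : ℕ) : ZMod kk) + 1 := by
      show 1 - 2 * (-(j : ZMod kk)) = _
      push_cast
      ring
    have h2 : actR (r (-(j : ZMod kk)) : D) 2 = ((2 * j + 1 : ℕ) : ZMod kk) + 1 := by
      show 2 - 2 * (-(j : ZMod kk)) = _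
      push_cast
      ring
    have h3 : 2 * (j + 1) = 2 * j + 1 + 1 := by ring
    have h4 : -(j : ZMod kk) + -1 = -((j + 1 : ℕ) : ZMod kk) := by
      push_cast
      ring
    rw [h1, h2, h3, Finset.prod_range_succ, Finset.prod_range_succ, h4, mul_assoc]

theorem zs_pow (j : ℕ) : (zE * sE) ^ j =
    ⟨∏ a ∈ Finset.range (2 * j), S (-(a : ZMod kk)), r (j : ZMod kk)⟩ := by
  induction j with
  | zero =>
    rw [pow_zero, mul_zero, Finset.prod_range_zero, Nat.cast_zero, r_zero]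
    rfl
  | succ j ih =>
    rw [pow_succ, ih, zs, mulE, map_mul, permAct_S, permAct_S, r_mul_r]
    have h1 : actR (r (j : ZMod kk) : D) 0 = -((2 * j : ℕ) : ZMod kk) := by
      show 0 - 2 * (j : ZMod kk) = _
      push_cast
      ring
    have h2 : actR (r (j : ZMod kk) : D) (-1) = -((2 * j + 1 : ℕ) : ZMod kk) := by
      show -1 - 2 * (j : ZMod kk) = _
      push_cast
      ring
    have h3 : 2 * (j + 1) = 2 * j + 1 + 1 := by ring
    have h4 : (j : ZMod kk) + 1 = ((j + 1 : ℕ) : ZMod kk) := by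
      push_cast
      ring
    rw [h1, h2, h3, Finset.prod_range_succ, Finset.prod_range_succ, h4, mul_assoc]

theorem kk_eq : 2 * (Mm.n + 1) + 1 = kk := by
  unfold kk
  ring

theorem braid : (sE * zE) ^ (Mm.n + 1) * sE = (zE * sE) ^ (Mm.n + 1) * zE := by
  rw [sz_pow, zs_pow, sE, zE, mulE, mulE, permAct_S, permAct_S, r_mul_sr, r_mul_sr]
  have h1 : actR (r (-((Mm.n + 1 : ℕ) : ZMod kk)) : D) 1 = ((2 * (Mm.n + 1) : ℕ) : ZMod kk) + 1 := by
    show 1 - 2 * (-((Mm.n + 1 : ℕ) : ZMod kk)) = _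
    push_cast
    ring
  have h2 : actR (r ((Mm.n + 1 : ℕ) : ZMod kk) : D) 0 = -((2 * (Mm.n + 1) : ℕ) : ZMod kk) := by
    show 0 - 2 * ((Mm.n + 1 : ℕ) : ZMod kk) = _
    push_cast
    ring
  have h3 : (1 : ZMod kk) - -((Mm.n + 1 : ℕ) : ZMod kk) = 0 - ((Mm.n + 1 : ℕ) : ZMod kk) := by
    have h := two_half
    push_cast
    linear_combination h
  have e1 : ∏ a ∈ Finset.range kk, S ((a : ZMod kk) + 1) = ∏ x : ZMod kk, S x := by
    rw [prod_all (fun x => S (x + 1))]
    exact Fintype.prod_equiv (Equiv.addRight 1) _ _ (fun _ => rfl)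
  have e2 : ∏ a ∈ Finset.range kk, S (-(a : ZMod kk)) = ∏ x : ZMod kk, S x := by
    rw [prod_all (fun x => S (-x))]
    exact Fintype.prod_equiv (Equiv.neg _) _ _ (fun _ => rfl)
  rw [h1, h2, ← Finset.prod_range_succ (fun a : ℕ => S ((a : ZMod kk) + 1)),
    ← Finset.prod_range_succ (fun a : ℕ => S (-(a : ZMod kk))), kk_eq, e1, e2, h3]

theorem rel_braid {G : Type*} [Group G] (σ z : G)
    (h : (σ * z) ^ (Mm.n + 1) * σ = (z * σ) ^ (Mm.n + 1) * z) : rel z (σ * z⁻¹) = 1 := by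
  unfold rel
  have e1 : σ * z⁻¹ * z * z = σ * z := by group
  have e2 : z * (σ * z⁻¹) * z = z * σ := by group
  rw [e1, e2, ← mul_assoc, h, mul_assoc _ z z⁻¹, mul_inv_cancel, mul_one, mul_inv_cancel]

/-- image of `u` in the extension -/
def uE : Ext D I3 := sE * zE⁻¹

theorem rel_uE : rel zE uE = 1 := rel_braid _ _ braid

/-- image of `z` -/
def zg : D := sr 0
/-- image of `u` -/
def ug : D := r (-1)

theorem right_zE : SemidirectProduct.rightHom zE = zg := rfl

theorem right_uE : SemidirectProduct.rightHom uE = ug := by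
  rw [uE, map_mul, map_inv, right_zE]
  show sr 1 * (zg)⁻¹ = ug
  rw [zg, inv_sr, sr_mul_sr, zero_sub, ug]

theorem rel_g1 : rel zg ug = 1 := by
  rw [← right_zE, ← right_uE, ← map_rel, rel_uE, map_one]

theorem rel_g : (1 : D) * 1 * 1⁻¹ = rel zg ug * 1 := by
  rw [rel_g1]
  simp

/-- the homomorphism to the dihedral group -/
def pi3 : P →* D := liftP 1 1 zg ug rel_g

@[simp] theorem pi3_ps : pi3 ps = 1 := by simp [pi3]
@[simp] theorem pi3_pt : pi3 pt = 1 := by simp [pi3]
@[simp] theorem pi3_pz : pi3 pz = zg := by simp [pi3]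
@[simp] theorem pi3_pu : pi3 pu = ug := by simp [pi3]

theorem ug_pow (a : ZMod kk) : ug ^ (-a).val = r a := by
  rw [ug, r_pow, ZMod.natCast_zmod_val]
  congr 1
  ring

theorem pi3_surj (γ : D) : ∃ g : P, pi3 g = γ := by
  rcases γ with a | a
  · exact ⟨pu ^ (-a).val, by rw [map_pow, pi3_pu, ug_pow]⟩
  · refine ⟨pz * pu ^ (-a).val, ?_⟩
    rw [map_mul, map_pow, pi3_pu, ug_pow, pi3_pz, zg, sr_mul_r, zero_add]

theorem relE : (SemidirectProduct.inl (single3 (Sum.inr (Sum.inl 1)) 1) : Ext D I3) *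
    (SemidirectProduct.inl (single3 (Sum.inr (Sum.inr 1)) 1) : Ext D I3) *
    (SemidirectProduct.inl (single3 (Sum.inr (Sum.inl 1)) 1) : Ext D I3)⁻¹ =
    rel zE uE * SemidirectProduct.inl (single3 (Sum.inr (Sum.inr 1)) 1) := by
  rw [rel_uE, one_mul, ← map_mul, ← map_inv, ← map_mul, mul_comm
    (single3 (Sum.inr (Sum.inl 1)) 1), mul_inv_cancel_right]

/-- the homomorphism to the extension -/
def Psi3 : P →* Ext D I3 :=
  liftP (SemidirectProduct.inl (single3 (Sum.inr (Sum.inl 1)) 1))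
    (SemidirectProduct.inl (single3 (Sum.inr (Sum.inr 1)) 1)) zE uE relE

theorem Psi3_right (g : P) : (Psi3 g).right = pi3 g := by
  have : SemidirectProduct.rightHom.comp Psi3 = pi3 := by
    apply hom_ext
    · simp [Psi3]
    · simp [Psi3]
    · simp only [MonoidHom.comp_apply, Psi3, liftP_pz, pi3]
      exact right_zE
    · simp only [MonoidHom.comp_apply, Psi3, liftP_pu, pi3]
      exact right_uE
  exact DFunLike.congr_fun this g

/-- generators of the kernel -/
def gen3 : Fin 3 → P := ![pz * pz, ps, pt]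
/-- their positions -/
def idx3 : Fin 3 → I3 := ![Sum.inl (0 : ZMod kk), Sum.inr (Sum.inl 1), Sum.inr (Sum.inr 1)]
/-- weights -/
def m3 : I3 → ℤ
  | Sum.inl _ => 2
  | Sum.inr _ => 1

theorem zg_sq : zg * zg = 1 := sr_mul_self 0

theorem gen3_ker (j : Fin 3) : gen3 j ∈ pi3.ker := by
  rw [MonoidHom.mem_ker]
  fin_cases j
  · show pi3 (pz * pz) = 1
    rw [map_mul, pi3_pz, zg_sq]
  · exact pi3_ps
  · exact pi3_pt

theorem hgen3 (j : Fin 3) (i : I3) :
    (Psi3 (gen3 j)).left i = if i = idx3 j then Multiplicative.ofAdd (m3 i) else 1 := by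
  fin_cases j
  · show (Psi3 (pz * pz)).left i = if i = (Sum.inl (0 : ZMod kk) : I3) then _ else _
    rw [map_mul]
    simp only [Psi3, liftP_pz]
    have h : zE * zE = ⟨S 0 * S 0, 1⟩ := by
      rw [zE, mulE, permAct_S, sr_mul_self]
      have h : actR (sr 0 : D) 0 = 0 := by
        show 2 * 0 - 0 = (0 : ZMod kk)
        ring
      rw [h]
    rw [h]
    show S 0 i * S 0 i = _
    unfold S single3
    by_cases hi : i = (Sum.inl (0 : ZMod kk) : I3)
    · rw [if_pos hi, if_pos hi, hi, ← ofAdd_add]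
      rfl
    · rw [if_neg hi, if_neg hi, mul_one]
  · show (Psi3 ps).left i = if i = Sum.inr (Sum.inl 1) then _ else _
    simp only [Psi3, liftP_ps, SemidirectProduct.left_inl, single3]
    by_cases h : i = Sum.inr (Sum.inl 1)
    · rw [if_pos h, if_pos h, h]; rfl
    · rw [if_neg h, if_neg h]
  · show (Psi3 pt).left i = if i = Sum.inr (Sum.inr 1) then _ else _
    simp only [Psi3, liftP_pt, SemidirectProduct.left_inl, single3]
    by_cases h : i = Sum.inr (Sum.inr 1)
    · rw [if_pos h, if_pos h, h]; rfl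
    · rw [if_neg h, if_neg h]

/-- a section -/
noncomputable def sec3 (γ : D) : P := (pi3_surj γ).choose

theorem sec3_spec (γ : D) : pi3 (sec3 γ) = γ := (pi3_surj γ).choose_spec

/-- a reflection moving `0` to `x` -/
def tr (x : ZMod kk) : D := sr (x * ((Mm.n : ZMod kk) + 2))

theorem tr_act (x : ZMod kk) : actR (tr x) 0 = x := by
  show 2 * (x * ((Mm.n : ZMod kk) + 2)) - 0 = x
  have h := two_half
  linear_combination x * h

/-- classes -/
noncomputable def e3 : I3 → Abelianization pi3.ker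
  | Sum.inl k => cls pi3 (sec3 (tr k)) (gen3 0) (gen3_ker 0)
  | Sum.inr (Sum.inl γ) => cls pi3 (sec3 γ) (gen3 1) (gen3_ker 1)
  | Sum.inr (Sum.inr γ) => cls pi3 (sec3 γ) (gen3 2) (gen3_ker 2)

theorem stab (γ : D) (h : actR γ 0 = 0) : γ = 1 ∨ γ = zg := by
  rcases γ with a | a
  · left
    have h1 : 0 - 2 * a = 0 := h
    rw [zero_sub, neg_eq_zero] at h1
    rw [of_two a h1, r_zero]
  · right
    have h1 : 2 * a - 0 = 0 := h
    rw [sub_zero] at h1
    rw [of_two a h1, zg]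

theorem cls_z (g h : P) (hgh : actR (pi3 g) 0 = actR (pi3 h) 0) :
    cls pi3 g (gen3 0) (gen3_ker 0) = cls pi3 h (gen3 0) (gen3_ker 0) := by
  have h1 : actR ((pi3 h)⁻¹ * pi3 g) 0 = 0 := by
    rw [actR_mul, hgh, ← actR_mul, inv_mul_cancel, actR_one]
  rcases stab _ h1 with h3 | h3
  · apply cls_congr
    rw [inv_mul_eq_one] at h3
    exact h3.symm
  · have h4 : pi3 g = pi3 (h * pz) := by
      rw [map_mul, pi3_pz, ← h3]; group
    rw [cls_congr pi3 g (h * pz) _ _ h4]
    unfold cls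
    congr 1
    apply Subtype.ext
    show h * pz * (pz * pz) * (h * pz)⁻¹ = h * (pz * pz) * h⁻¹
    group

theorem hcls3 (j : Fin 3) (g : P) :
    cls pi3 g (gen3 j) (gen3_ker j) = e3 (pi3 g • idx3 j) := by
  fin_cases j
  · show cls pi3 g (gen3 0) (gen3_ker 0) = e3 (Sum.inl (actR (pi3 g) 0))
    show _ = cls pi3 (sec3 (tr (actR (pi3 g) 0))) (gen3 0) (gen3_ker 0)
    apply cls_z
    rw [sec3_spec, tr_act]
  · show cls pi3 g (gen3 1) (gen3_ker 1) = e3 (Sum.inr (Sum.inl (pi3 g • 1)))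
    rw [smul_eq_mul, mul_one]
    exact cls_congr _ _ _ _ _ (sec3_spec _).symm
  · show cls pi3 g (gen3 2) (gen3_ker 2) = e3 (Sum.inr (Sum.inr (pi3 g • 1)))
    rw [smul_eq_mul, mul_one]
    exact cls_congr _ _ _ _ _ (sec3_spec _).symm

theorem hmi3 (j : Fin 3) (γ : D) : m3 (γ • idx3 j) = m3 (idx3 j) := by
  fin_cases j <;> rfl

theorem hm3 (i : I3) : m3 i ≠ 0 := by
  rcases i with k | k
  · show (2 : ℤ) ≠ 0; norm_num
  · show (1 : ℤ) ≠ 0; norm_num

section Quot

/-- consequences of the relation in a quotient where `z` has order two -/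
theorem quot_facts {R : Type*} [Group R] (z u : R) (hz : z * z = 1) (hr : rel z u = 1) :
    u ^ kk = 1 ∧ u * z = z * u⁻¹ := by
  have hzi : z⁻¹ = z := inv_eq_of_mul_eq_one_left hz
  have hc : ∀ j : ℕ, (z * u * z) ^ j = z * u ^ j * z := by
    intro j
    have := conj_pow (i := j) (a := z) (b := u)
    rwa [hzi] at this
  have h1 : u ^ (Mm.n + 2) = z * u ^ (Mm.n + 1) * z := by
    unfold rel at hr
    have h2 : u * z * z = u := by rw [mul_assoc, hz, mul_one]
    rw [h2, ← pow_succ, hc] at hr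
    exact mul_inv_eq_one.mp hr
  have hzz : ∀ x : R, z * (z * x * z) * z = x := by
    intro x
    calc z * (z * x * z) * z = (z * z) * x * (z * z) := by simp only [mul_assoc]
      _ = x := by rw [hz, one_mul, mul_one]
  have h2 : z * u ^ (Mm.n + 2) * z = u ^ (Mm.n + 1) := by
    rw [h1, hzz]
  have h3 : z * u * z = u⁻¹ := by
    have h4 : (z * u * z) ^ (Mm.n + 2) = (z * u * z) * (z * u * z) ^ (Mm.n + 1) := pow_succ' _ _
    rw [hc, hc, h2, ← h1, pow_succ u (Mm.n + 1), ← mul_assoc, ] at h4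
    have h5 : 1 * u ^ (Mm.n + 1) = (z * u * z) * u * u ^ (Mm.n + 1) := by
      rw [one_mul, mul_assoc (z * u * z), ← pow_succ']
      calc u ^ (Mm.n + 1) = z * u * z * u ^ (Mm.n + 1) * u := h4
        _ = _ := by rw [mul_assoc _ (u ^ (Mm.n + 1)) u, ← pow_succ]
    have h6 := mul_right_cancel h5
    exact (inv_eq_of_mul_eq_one_left h6.symm).symm
  refine ⟨?_, ?_⟩
  · have h4 : u ^ (Mm.n + 2) = (u⁻¹) ^ (Mm.n + 1) := by
      rw [← h3, hc, ← h1]
    have h5 : u ^ (Mm.n + 2) * u ^ (Mm.n + 1) = 1 := by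
      rw [h4, inv_pow, inv_mul_cancel]
    rw [← pow_add] at h5
    have h6 : Mm.n + 2 + (Mm.n + 1) = kk := by unfold kk; ring
    rwa [h6] at h5
  · calc u * z = (z * z) * u * z := by rw [hz, one_mul]
      _ = z * (z * u * z) := by simp only [mul_assoc]
      _ = z * u⁻¹ := by rw [h3]

theorem comm_step {R : Type*} [Group R] (z u : R) (hz : z * z = 1) (hc : u * z = z * u⁻¹)
    (c b : ℤ) : ∃ b' : ℤ, u ^ b * z ^ c = z ^ c * u ^ b' := by
  have hzi : z⁻¹ = z := inv_eq_of_mul_eq_one_left hz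
  have h1 : ∀ k : ℤ, u ^ k * z = z * u ^ (-k) := by
    intro k
    have : SemiconjBy z u⁻¹ u := by
      show z * u⁻¹ = u * z
      exact hc.symm
    have h2 := this.zpow_right k
    rw [inv_zpow, ← zpow_neg] at h2
    exact h2.eq.symm
  induction c using Int.induction_on with
  | zero => exact ⟨b, by simp⟩
  | succ c ih =>
    obtain ⟨b', hb'⟩ := ih
    refine ⟨-b', ?_⟩
    rw [zpow_add_one, ← mul_assoc, hb', mul_assoc, h1, ← mul_assoc]
  | pred c ih =>
    obtain ⟨b', hb'⟩ := ih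
    refine ⟨-b', ?_⟩
    rw [zpow_sub_one, hzi, ← mul_assoc, hb', mul_assoc, h1, ← mul_assoc]

end Quot

theorem zg_ug (a b : ℤ) (h : zg ^ a * ug ^ b = 1) : Even a ∧ (kk : ℤ) ∣ b := by
  have hub : ug ^ b = r (-(b : ZMod kk)) := by
    rw [ug, r_zpow]
    congr 1
    ring
  rcases Int.even_or_odd' a with ⟨c, hc | hc⟩
  · have h1 : zg ^ a = 1 := by
      rw [hc, zpow_mul, zpow_ofNat, sq, zg_sq, one_zpow]
    rw [h1, one_mul, hub, one_def] at h
    have h2 : -(b : ZMod kk) = 0 := r.inj h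
    rw [neg_eq_zero] at h2
    exact ⟨⟨c, by omega⟩, (ZMod.intCast_zmod_eq_zero_iff_dvd b kk).1 h2⟩
  · exfalso
    have h1 : zg ^ a = zg := by
      rw [hc, zpow_add_one, zpow_mul, zpow_ofNat, sq, zg_sq, one_zpow, one_mul]
    rw [h1, hub, zg, sr_mul_r, one_def] at h
    nomatch h

theorem hN3 : pi3.ker ≤ Subgroup.normalClosure (Set.range gen3) := by
  set C := Subgroup.normalClosure (Set.range gen3) with hC
  have hCle : C ≤ pi3.ker := by
    apply Subgroup.normalClosure_le_normal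
    rintro _ ⟨j, rfl⟩
    exact gen3_ker j
  have hgenC : ∀ j, gen3 j ∈ C := fun j => Subgroup.subset_normalClosure ⟨j, rfl⟩
  let q : P →* P ⧸ C := QuotientGroup.mk' C
  have hz : q pz * q pz = 1 := by
    rw [← map_mul]; exact (QuotientGroup.eq_one_iff _).mpr (hgenC 0)
  have hs : q ps = 1 := (QuotientGroup.eq_one_iff _).mpr (hgenC 1)
  have ht : q pt = 1 := (QuotientGroup.eq_one_iff _).mpr (hgenC 2)
  have hr : rel (q pz) (q pu) = 1 := by
    have := congrArg q rel_P
    rw [map_mul, map_mul, map_mul, map_rel, map_inv, hs, ht] at this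
    simpa using this.symm
  obtain ⟨hu3, hc⟩ := quot_facts _ _ hz hr
  have hform : ∀ x : P, ∃ a b : ℤ, q x = q pz ^ a * q pu ^ b := by
    intro x
    have hx : x ∈ Subgroup.closure ({ps, pt, pz, pu} : Set P) := by
      rw [closure_eq_top]; trivial
    induction hx using Subgroup.closure_induction with
    | mem x hx =>
      simp only [Set.mem_insert_iff, Set.mem_singleton_iff] at hx
      rcases hx with rfl | rfl | rfl | rfl
      · exact ⟨0, 0, by simp [hs]⟩
      · exact ⟨0, 0, by simp [ht]⟩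
      · exact ⟨1, 0, by simp⟩
      · exact ⟨0, 1, by simp⟩
    | one => exact ⟨0, 0, by simp⟩
    | mul x y _ _ ihx ihy =>
      obtain ⟨a, b, h1⟩ := ihx
      obtain ⟨c, d, h2⟩ := ihy
      obtain ⟨b', h3⟩ := comm_step _ _ hz hc c b
      refine ⟨a + c, b' + d, ?_⟩
      rw [map_mul, h1, h2, zpow_add, zpow_add]
      calc q pz ^ a * q pu ^ b * (q pz ^ c * q pu ^ d)
          = q pz ^ a * (q pu ^ b * q pz ^ c) * q pu ^ d := by group
        _ = q pz ^ a * (q pz ^ c * q pu ^ b') * q pu ^ d := by rw [h3]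
        _ = _ := by group
    | inv x _ ihx =>
      obtain ⟨a, b, h1⟩ := ihx
      obtain ⟨b', h3⟩ := comm_step _ _ hz hc (-a) (-b)
      refine ⟨-a, b', ?_⟩
      rw [map_inv, h1, mul_inv_rev, ← zpow_neg, ← zpow_neg, h3]
  intro x hx
  obtain ⟨a, b, hab⟩ := hform x
  have h1 : (pz ^ a * pu ^ b)⁻¹ * x ∈ C := by
    rw [← QuotientGroup.eq]
    show q (pz ^ a * pu ^ b) = q x
    rw [hab, map_mul, map_zpow, map_zpow]
  have h2 : pi3 (pz ^ a * pu ^ b) = 1 := by
    have h3 : pi3 ((pz ^ a * pu ^ b)⁻¹ * x) = 1 := hCle h1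
    have h4 : pi3 x = 1 := hx
    rw [map_mul, h4, mul_one, map_inv, inv_eq_one] at h3
    exact h3
  rw [map_mul, map_zpow, map_zpow, pi3_pz, pi3_pu] at h2
  obtain ⟨⟨a', ha'⟩, ⟨b', hb'⟩⟩ := zg_ug a b h2
  have h8 : q pz ^ a = 1 := by
    rw [ha', zpow_add, ← (Commute.refl (q pz)).mul_zpow, hz, one_zpow]
  have h9 : q pu ^ b = 1 := by
    rw [hb', zpow_mul, zpow_natCast, hu3, one_zpow]
  rw [h8, h9, mul_one] at hab
  exact (QuotientGroup.eq_one_iff x).mp hab

/-- the abelianization of the kernel is torsion-free -/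
theorem ker_torsionFree (x : Abelianization pi3.ker) (hx : IsOfFinOrder x) : x = 1 :=
  ab_torsionFree pi3 Psi3 Psi3_right e3 m3 hm3 (Fin 3) gen3 gen3_ker idx3 hgen3 hcls3 hmi3 hN3 x hx

/-- elements of the kernel with trivial coordinates lie in the commutator subgroup -/
theorem mem_comm (x : P) (hx : x ∈ pi3.ker) (h : (Psi3 x).left = 1) :
    x ∈ ⁅pi3.ker, pi3.ker⁆ := by
  obtain ⟨y, hy1, hy2⟩ := exists_coord pi3 Psi3 Psi3_right e3 m3 (Fin 3) gen3 gen3_ker idx3 hgen3
    hcls3 hmi3 hN3 ⟨x, hx⟩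
  have hy : y = 0 := by
    ext i
    have h2 := hy2 i
    change (Psi3 x).left i = _ at h2
    rw [h] at h2
    have h3 := congrArg Multiplicative.toAdd h2
    rw [Pi.one_apply, toAdd_one, toAdd_ofAdd] at h3
    rcases mul_eq_zero.1 h3.symm with h4 | h4
    · exact absurd h4 (hm3 i)
    · exact h4
  rw [hy, Finsupp.prod_zero_index] at hy1
  have h5 : (⟨x, hx⟩ : pi3.ker) ∈ commutator pi3.ker := by
    rw [← Abelianization.ker_of]
    exact hy1
  rw [← Subgroup.map_subtype_commutator]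
  exact ⟨⟨x, hx⟩, h5, rfl⟩

theorem uE_eq : uE = ⟨S 1 * (S 2)⁻¹, r (-1)⟩ := by
  have h : uE * zE = sE := by
    rw [uE, inv_mul_cancel_right]
  have h2 : (⟨S 1 * (S 2)⁻¹, r (-1)⟩ : Ext D I3) * zE = sE := by
    rw [zE, mulE, permAct_S, r_mul_sr, sE]
    have h3 : actR (r (-1) : D) 0 = 2 := by
      show 0 - 2 * (-1) = (2 : ZMod kk)
      ring
    rw [h3, inv_mul_cancel_right, sub_neg_eq_add, zero_add]
  exact mul_right_cancel (h.trans h2.symm)

theorem uE_pow (j : ℕ) : uE ^ j = ⟨(∏ a ∈ Finset.range j, S (1 + 2 * (a : ZMod kk))) *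
    (∏ a ∈ Finset.range j, S (2 + 2 * (a : ZMod kk)))⁻¹, r (-(j : ZMod kk))⟩ := by
  induction j with
  | zero =>
    rw [pow_zero, Finset.prod_range_zero, Finset.prod_range_zero, Nat.cast_zero, neg_zero, r_zero,
      inv_one, mul_one]
    rfl
  | succ j ih =>
    rw [pow_succ, ih, uE_eq, mulE, map_mul, map_inv, permAct_S, permAct_S, r_mul_r]
    have h1 : actR (r (-(j : ZMod kk)) : D) 1 = 1 + 2 * (j : ZMod kk) := by
      show 1 - 2 * (-(j : ZMod kk)) = _
      ring
    have h2 : actR (r (-(j : ZMod kk)) : D) 2 = 2 + 2 * (j : ZMod kk) := by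
      show 2 - 2 * (-(j : ZMod kk)) = _
      ring
    have h4 : -(j : ZMod kk) + -1 = -((j + 1 : ℕ) : ZMod kk) := by
      push_cast
      ring
    rw [h1, h2, h4, Finset.prod_range_succ, Finset.prod_range_succ, mul_inv,
      mul_mul_mul_comm]

theorem uE_kk : uE ^ kk = 1 := by
  rw [uE_pow, prod_all (fun x => S (1 + 2 * x)), prod_all (fun x => S (2 + 2 * x)),
    prod_affine, prod_affine, mul_inv_cancel, ZMod.natCast_self, neg_zero, r_zero]
  rfl

/-- the class of `u` modulo `[N, N]` has order `k` -/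
theorem order_u : orderOf (QuotientGroup.mk pu : P ⧸ ⁅pi3.ker, pi3.ker⁆) = kk := by
  apply Nat.dvd_antisymm
  · rw [orderOf_dvd_iff_pow_eq_one]
    show QuotientGroup.mk (pu ^ kk) = _
    rw [QuotientGroup.eq_one_iff]
    have h : Psi3 (pu ^ kk) = 1 := by
      rw [map_pow, Psi3, liftP_pu, uE_kk]
    apply mem_comm
    · rw [MonoidHom.mem_ker, ← Psi3_right, h]
      rfl
    · rw [h]
      rfl
  · have h0 : (pu ^ orderOf (QuotientGroup.mk pu : P ⧸ ⁅pi3.ker, pi3.ker⁆)) ∈
        ⁅pi3.ker, pi3.ker⁆ := by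
      rw [← QuotientGroup.eq_one_iff]
      exact pow_orderOf_eq_one (QuotientGroup.mk pu : P ⧸ ⁅pi3.ker, pi3.ker⁆)
    have h1 := (Subgroup.commutator_le_left pi3.ker pi3.ker) h0
    rw [MonoidHom.mem_ker, map_pow, pi3_pu] at h1
    have h2 := (zg_ug 0 (orderOf (QuotientGroup.mk pu : P ⧸ ⁅pi3.ker, pi3.ker⁆) : ℕ) (by
      rw [zpow_zero, one_mul, zpow_natCast, h1])).2
    exact_mod_cast h2

end Pool.Agent.Y437.TK.Tors
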