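import Mathlib
import Pool.Agent.Y437.TK.Wreath

set_option autoImplicit false

/-!
The equation `rel z u = k` has exactly one solution `u` in a nilpotent group; consequently
`P` has the same lower central quotients as a free group of rank three.
-/

namespace Pool.Agent.Y437.TK

variable [Mm]

open scoped commutatorElement

section Nilpotent

variable {G : Type*} [Group G]

theorem ctr_central (z k u y : G) (hy : ∀ g : G, y * g = g * y) : ctr z k (u * y) = ctr z k u := by
  unfold ctr
  have c : ∀ g : G, Commute g y := fun g => (hy g).symm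
  have e1 : z * (u * y) * z = (z * u * z) * y := by
    simp only [mul_assoc]
    rw [hy z]
  have e2 : u * y * z * z = (u * z * z) * y := by
    rw [mul_assoc u y z, hy z, mul_assoc u, mul_assoc z y z, hy z]
    simp only [mul_assoc]
  rw [e1, e2, (c _).mul_pow, (c _).mul_pow]
  have e3 : z * z * ((u * z * z) ^ Mm.n * y ^ Mm.n) * (u * y) =
      z * z * (u * z * z) ^ Mm.n * u * y ^ (Mm.n + 1) := by
    have h : y ^ Mm.n * u = u * y ^ Mm.n := ((c u).pow_right _).eq.symm
    calc z * z * ((u * z * z) ^ Mm.n * y ^ Mm.n) * (u * y)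
        = z * z * (u * z * z) ^ Mm.n * (y ^ Mm.n * u) * y := by simp only [mul_assoc]
      _ = z * z * (u * z * z) ^ Mm.n * (u * y ^ Mm.n) * y := by rw [h]
      _ = _ := by rw [pow_succ]; simp only [mul_assoc]
  rw [e3, mul_inv_rev]
  calc k * ((z * u * z) ^ (Mm.n + 1) * y ^ (Mm.n + 1)) *
        ((y ^ (Mm.n + 1))⁻¹ * (z * z * (u * z * z) ^ Mm.n * u)⁻¹)
      = k * (z * u * z) ^ (Mm.n + 1) * (y ^ (Mm.n + 1) * (y ^ (Mm.n + 1))⁻¹) *
        (z * z * (u * z * z) ^ Mm.n * u)⁻¹ := by simp only [mul_assoc]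
    _ = _ := by rw [mul_inv_cancel, mul_one]

theorem map_ctr {H : Type*} [Group H] (f : G →* H) (z k u : G) :
    f (ctr z k u) = ctr (f z) (f k) (f u) := by simp [ctr]

theorem ctr_mem (n : ℕ) (z k u u' : G)
    (h : u⁻¹ * u' ∈ (⊤ : Subgroup G).lowerCentralSeries n) :
    (ctr z k u)⁻¹ * ctr z k u' ∈ (⊤ : Subgroup G).lowerCentralSeries (n + 1) := by
  set y := u⁻¹ * u' with hy
  have hu' : u' = u * y := by rw [hy]; group
  rw [hu', ← QuotientGroup.eq]
  let q := QuotientGroup.mk' ((⊤ : Subgroup G).lowerCentralSeries (n + 1))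
  show q (ctr z k u) = q (ctr z k (u * y))
  have hcent : ∀ g, q y * g = g * q y := by
    intro g
    obtain ⟨g, rfl⟩ := QuotientGroup.mk'_surjective _ g
    rw [← map_mul, ← map_mul]
    show QuotientGroup.mk (y * g) = QuotientGroup.mk (g * y)
    rw [QuotientGroup.eq]
    have h1 : ⁅y, g⁆ ∈ (⊤ : Subgroup G).lowerCentralSeries (n + 1) := by
      rw [Subgroup.lowerCentralSeries_succ]
      exact Subgroup.commutator_mem_commutator h (Subgroup.mem_top g)
    have h2 := (Subgroup.lowerCentralSeries_normal (⊤ : Subgroup G) (n + 1)).conj_mem _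
      (Subgroup.inv_mem _ h1) (y * g)⁻¹
    have e : (y * g)⁻¹ * ⁅y, g⁆⁻¹ * (y * g)⁻¹⁻¹ = (y * g)⁻¹ * (g * y) := by
      rw [commutatorElement_def]
      group
    rwa [e] at h2
  rw [map_ctr, map_ctr, map_mul, ctr_central _ _ _ _ hcent]

/-- the iterates -/
def iter (z k : G) : ℕ → G
  | 0 => 1
  | n + 1 => ctr z k (iter z k n)

theorem iter_mem (z k : G) (n : ℕ) :
    (iter z k n)⁻¹ * iter z k (n + 1) ∈ (⊤ : Subgroup G).lowerCentralSeries n := by
  induction n with
  | zero => trivial
  | succ n ih => exact ctr_mem n z k _ _ ih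

theorem exists_sol [hG : Group.IsNilpotent G] (z k : G) : ∃ u : G, rel z u = k := by
  obtain ⟨n, hn⟩ := (Subgroup.nilpotent_iff_lowerCentralSeries (G := G)).mp hG
  refine ⟨iter z k n, ?_⟩
  rw [rel_eq_iff]
  have := iter_mem z k n
  rw [hn, Subgroup.mem_bot, inv_mul_eq_one] at this
  exact this

theorem unique_sol [hG : Group.IsNilpotent G] (z k u u' : G) (h : rel z u = k)
    (h' : rel z u' = k) : u = u' := by
  rw [rel_eq_iff] at h h'
  have key : ∀ n, u⁻¹ * u' ∈ (⊤ : Subgroup G).lowerCentralSeries n := by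
    intro n
    induction n with
    | zero => trivial
    | succ n ih =>
      have := ctr_mem n z k u u' ih
      rwa [← h, ← h'] at this
  obtain ⟨n, hn⟩ := (Subgroup.nilpotent_iff_lowerCentralSeries (G := G)).mp hG
  have := key n
  rw [hn, Subgroup.mem_bot, inv_mul_eq_one] at this
  exact this

end Nilpotent

/-- quotients by terms of the lower central series are nilpotent -/
theorem quot_nilp {G : Type*} [Group G] (n : ℕ) :
    Group.IsNilpotent (G ⧸ (⊤ : Subgroup G).lowerCentralSeries n) := by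
  rw [Subgroup.nilpotent_iff_lowerCentralSeries]
  refine ⟨n, ?_⟩
  rw [eq_bot_iff]
  have h := Subgroup.map_lowerCentralSeries (⊤ : Subgroup G)
    (QuotientGroup.mk' ((⊤ : Subgroup G).lowerCentralSeries n)) n
  rw [Subgroup.map_top_of_surjective _ (QuotientGroup.mk'_surjective _)] at h
  rw [← h]
  rintro _ ⟨x, hx, rfl⟩
  rw [Subgroup.mem_bot]
  exact (QuotientGroup.eq_one_iff x).mpr hx

theorem map_lcs_le {G H : Type*} [Group G] [Group H] (f : G →* H) (n : ℕ) (x : G)
    (hx : x ∈ (⊤ : Subgroup G).lowerCentralSeries n) :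
    f x ∈ (⊤ : Subgroup H).lowerCentralSeries n := by
  have h1 : f x ∈ ((⊤ : Subgroup G).lowerCentralSeries n).map f := ⟨x, hx, rfl⟩
  rw [Subgroup.map_lowerCentralSeries] at h1
  exact Subgroup.lowerCentralSeries_mono n (le_top : (⊤ : Subgroup G).map f ≤ ⊤) h1

/-- the free group of rank three -/
abbrev F3 : Type := FreeGroup (Fin 3)

/-- the natural map from the free group of rank three -/
def alpha : F3 →* P := FreeGroup.lift ![ps, pt, pz]

section Quot

variable (n : ℕ)

/-- abbreviation -/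
abbrev FQ : Type := F3 ⧸ (⊤ : Subgroup F3).lowerCentralSeries n
/-- abbreviation -/
abbrev PQ : Type := P ⧸ (⊤ : Subgroup P).lowerCentralSeries n

/-- classes of the generators -/
def fq (i : Fin 3) : FQ n := QuotientGroup.mk (FreeGroup.of i)

theorem exists_fu : ∃ u : FQ n, rel (fq n 2) u = fq n 0 * fq n 1 * (fq n 0)⁻¹ * (fq n 1)⁻¹ := by
  have : Group.IsNilpotent (FQ n) := quot_nilp n
  exact exists_sol _ _

/-- the solution -/
noncomputable def fu : FQ n := (exists_fu n).choose

theorem fu_spec : rel (fq n 2) (fu n) = fq n 0 * fq n 1 * (fq n 0)⁻¹ * (fq n 1)⁻¹ :=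
  (exists_fu n).choose_spec

/-- the map back -/
noncomputable def beta : P →* FQ n :=
  liftP (fq n 0) (fq n 1) (fq n 2) (fu n) (by rw [fu_spec]; group)

/-- induced map on quotients -/
noncomputable def alphaQ : FQ n →* PQ n :=
  QuotientGroup.lift _ ((QuotientGroup.mk' _).comp alpha) (by
    intro x hx
    exact (QuotientGroup.eq_one_iff _).mpr (map_lcs_le alpha n x hx))

/-- induced map on quotients -/
noncomputable def betaQ : PQ n →* FQ n :=
  QuotientGroup.lift _ (beta n) (by
    intro x hx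
    have h := map_lcs_le (beta n) n x hx
    have h2 : (⊤ : Subgroup (FQ n)).lowerCentralSeries n = ⊥ := by
      have h := Subgroup.map_lowerCentralSeries (⊤ : Subgroup F3)
        (QuotientGroup.mk' ((⊤ : Subgroup F3).lowerCentralSeries n)) n
      rw [Subgroup.map_top_of_surjective _ (QuotientGroup.mk'_surjective _)] at h
      rw [← h, eq_bot_iff]
      rintro _ ⟨x, hx, rfl⟩
      rw [Subgroup.mem_bot]
      exact (QuotientGroup.eq_one_iff x).mpr hx
    rw [h2] at h
    exact h)

theorem betaQ_mk (x : P) : betaQ n (QuotientGroup.mk x) = beta n x := rfl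

theorem alphaQ_mk (x : F3) : alphaQ n (QuotientGroup.mk x) = QuotientGroup.mk (alpha x) := rfl

theorem alphaQ_fq0 : alphaQ n (fq n 0) = QuotientGroup.mk ps := by
  rw [fq, alphaQ_mk, alpha, FreeGroup.lift_apply_of]; rfl
theorem alphaQ_fq1 : alphaQ n (fq n 1) = QuotientGroup.mk pt := by
  rw [fq, alphaQ_mk, alpha, FreeGroup.lift_apply_of]; rfl
theorem alphaQ_fq2 : alphaQ n (fq n 2) = QuotientGroup.mk pz := by
  rw [fq, alphaQ_mk, alpha, FreeGroup.lift_apply_of]; rfl

theorem beta_alpha : (betaQ n).comp (alphaQ n) = MonoidHom.id _ := by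
  apply QuotientGroup.monoidHom_ext
  apply FreeGroup.ext_hom
  intro i
  show betaQ n (alphaQ n (fq n i)) = fq n i
  fin_cases i
  · show betaQ n (alphaQ n (fq n 0)) = fq n 0
    rw [alphaQ_fq0, betaQ_mk, beta, liftP_ps]
  · show betaQ n (alphaQ n (fq n 1)) = fq n 1
    rw [alphaQ_fq1, betaQ_mk, beta, liftP_pt]
  · show betaQ n (alphaQ n (fq n 2)) = fq n 2
    rw [alphaQ_fq2, betaQ_mk, beta, liftP_pz]

theorem alpha_beta : (alphaQ n).comp (betaQ n) = MonoidHom.id _ := by
  apply QuotientGroup.monoidHom_ext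
  apply hom_ext
  · show alphaQ n (beta n ps) = QuotientGroup.mk ps
    rw [beta, liftP_ps, alphaQ_fq0]
  · show alphaQ n (beta n pt) = QuotientGroup.mk pt
    rw [beta, liftP_pt, alphaQ_fq1]
  · show alphaQ n (beta n pz) = QuotientGroup.mk pz
    rw [beta, liftP_pz, alphaQ_fq2]
  · show alphaQ n (beta n pu) = QuotientGroup.mk pu
    rw [beta, liftP_pu]
    have : Group.IsNilpotent (PQ n) := quot_nilp n
    apply unique_sol (QuotientGroup.mk pz : PQ n)
      ((QuotientGroup.mk ps : PQ n) * QuotientGroup.mk pt * (QuotientGroup.mk ps : PQ n)⁻¹ *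
        (QuotientGroup.mk pt : PQ n)⁻¹)
    · rw [← alphaQ_fq0, ← alphaQ_fq1, ← alphaQ_fq2, ← map_rel, fu_spec]
      simp
    · have h := congrArg (QuotientGroup.mk' ((⊤ : Subgroup P).lowerCentralSeries n)) rel_P
      simp only [map_mul, map_inv, map_rel] at h
      simp only [QuotientGroup.mk'_apply] at h
      rw [h]; group

/-- the lower central quotients are those of the free group of rank three -/
noncomputable def quotEquiv : PQ n ≃* FQ n :=
  MonoidHom.toMulEquiv (betaQ n) (alphaQ n) (alpha_beta n) (beta_alpha n)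

end Quot

end Pool.Agent.Y437.TK
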